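import Pool.Agent.Q194.TP.Rank

/-!
# Toeplitz products with a radial symbol on polyanalytic Bergman spaces

Questions Q1 and Q2 of the problem, both answered in the affirmative for every `n ≥ 1`: if
`f, g ∈ L^∞(D)`, one of them radial, and `T_f T_g` is of finite rank on `A²_n` (in particular if
`T_f T_g = 0`), then `f = 0` or `g = 0`.
-/

namespace Pool.Agent.Results.MP_119a45_an.RadialFiniteRank

open MeasureTheory Q194.TP
open scoped ENNReal ComplexConjugate

section Compression

variable {H : Type*} [NormedAddCommGroup H] [InnerProductSpace ℂ H]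

/-- The closed linear span of a set `S` in a Hilbert space. -/
def closedSpan (S : Set H) : Submodule ℂ H := (Submodule.span ℂ S).topologicalClosure

variable [CompleteSpace H]

instance instHOP (S : Set H) : (closedSpan S).HasOrthogonalProjection := by
  have : CompleteSpace (closedSpan S) :=
    (Submodule.span ℂ S).isClosed_topologicalClosure.completeSpace_coe
  infer_instance

/-- The compression `v ↦ P (M v)` of an operator `M` of the Hilbert space `H` to the closed linear
span `K` of `S`; here `P` is the orthogonal projection of `H` onto `K`. -/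
noncomputable def compression (S : Set H) (M : H → H) (v : closedSpan S) : closedSpan S :=
  (closedSpan S).orthogonalProjectionOnto (M v)

/-- The product of the compressions of `M` and `N` is zero. -/
def ZeroProduct (S : Set H) (M N : H → H) : Prop :=
  ∀ v : closedSpan S, compression S M (compression S N v) = 0

/-- The product of the compressions of `M` and `N` is of finite rank. -/
def FiniteRankProduct (S : Set H) (M N : H → H) : Prop :=
  FiniteDimensional ℂ (Submodule.span ℂ
    (Set.range fun v : closedSpan S => compression S M (compression S N v)))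

end Compression

/-- The polyanalytic functions of order `n` in `L²(D, dA)`: almost everywhere equal to
`∑_{j<n} (conj z)^j h_j(z)` with `h_j` holomorphic in the unit disc. They form a closed subspace, so
`closedSpan (polyanalytic n)` is the polyanalytic Bergman space `A²_n`. -/
def polyanalytic (n : ℕ) : Set (Lp ℂ 2 dA) :=
  {h | ∃ H : Fin n → ℂ → ℂ, (∀ j, DifferentiableOn ℂ (H j) (Metric.ball 0 1)) ∧
    ∀ᵐ z ∂dA, h z = ∑ j : Fin n, conj z ^ (j : ℕ) * H j z}

/-- Multiplication by `f ∈ L^∞(D)` on `L²(D, dA)`. The Toeplitz operator `T_f` on `A²_n` is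
`compression (polyanalytic n) (mul f)`. -/
noncomputable def mul (f : Lp ℂ ∞ dA) (h : Lp ℂ 2 dA) : Lp ℂ 2 dA := f • h

/-- `f = 0` almost everywhere. -/
def IsZero (f : Lp ℂ ∞ dA) : Prop := ∀ᵐ z ∂dA, f z = 0

lemma aux {n : ℕ} (hn : 0 < n) (f g : Lp ℂ ∞ dA) (hrad : Radial f ∨ Radial g)
    (K : Submodule ℂ (Lp ℂ 2 dA)) (hK : K = A2 n) [K.HasOrthogonalProjection]
    (hfin : FiniteDimensional ℂ (Submodule.span ℂ (Set.range fun h : K =>
      K.orthogonalProjectionOnto (mul f (K.orthogonalProjectionOnto (mul g h)))))) :
    IsZero f ∨ IsZero g := by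
  subst hK
  have h3 : f = 0 ∨ g = 0 := by
    refine main hn f g hrad ?_
    set S : A2 n →ₗ[ℂ] A2 n := ((T n f ∘L T n g : A2 n →L[ℂ] A2 n) : A2 n →ₗ[ℂ] A2 n) with hS
    have h1 : FiniteDimensional ℂ (Submodule.span ℂ (Set.range S)) := hfin
    have h2 : Submodule.span ℂ (Set.range S) = LinearMap.range S := by
      rw [← LinearMap.coe_range, Submodule.span_eq]
    rw [h2] at h1
    exact h1
  rcases h3 with h | h
  · exact Or.inl ((Lp.eq_zero_iff_ae_eq_zero (f := f)).1 h)
  · exact Or.inr ((Lp.eq_zero_iff_ae_eq_zero (f := g)).1 h)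

/-- Q1 and Q2: `T_f T_g = 0` implies `f = 0` or `g = 0`, and so does `rank T_f T_g < ∞`, if one of
`f`, `g` is radial. -/
theorem result (n : ℕ) (hn : 0 < n) (f g : Lp ℂ ∞ dA) (hrad : Radial f ∨ Radial g) :
    (ZeroProduct (polyanalytic n) (mul f) (mul g) → IsZero f ∨ IsZero g) ∧
    (FiniteRankProduct (polyanalytic n) (mul f) (mul g) → IsZero f ∨ IsZero g) := by
  have key : FiniteRankProduct (polyanalytic n) (mul f) (mul g) → IsZero f ∨ IsZero g := by
    intro hfin
    refine aux hn f g hrad (closedSpan (polyanalytic n)) ?_ hfin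
    have h1 : Submodule.span ℂ (polyanalytic n) = polyBergman n :=
      Submodule.span_eq (polyBergman n)
    rw [closedSpan, h1]
    rfl
  refine ⟨fun h0 => key ?_, key⟩
  have h1 : (fun v => compression (polyanalytic n) (mul f) (compression (polyanalytic n) (mul g) v))
      = fun _ => 0 := funext h0
  rw [FiniteRankProduct, h1]
  have h2 : Submodule.span ℂ (Set.range fun _ : closedSpan (polyanalytic n) =>
      (0 : closedSpan (polyanalytic n))) = ⊥ := by
    rw [Submodule.span_eq_bot]
    rintro _ ⟨x, rfl⟩
    rfl
  rw [h2]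
  infer_instance

end Pool.Agent.Results.MP_119a45_an.RadialFiniteRank
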